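import Pool.Agent.H76.FE.Defs

/-!
# Effective nef divisors on fourfolds with trivial canonical class: the fourfold
-/

namespace Pool.Agent.H76.FE

open Pool.Agent.H31.ND

/-- The model `(Y', S')` of the pair `(X, D)`, where `D` is an effective divisor, not zero, in the class of
a positive multiple of the nef line bundle `x`, and `x^3` is numerically trivial. -/
structure Model {r : ℕ} (X : Var r) (x : X.P) where
  l : ℕ
  b : ℕ
  N : Nbhd l b
  /-- `O_D(b a D)`, `a > 0`, is the pull back of a very ample line bundle on `Z`, it has a section -/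
  nonzero : ∀ a : ℕ, 0 < a → 0 < N.C.h 0 1 (b * a : ℕ)
  /-- the dimension of `H^0(Y', O(a G'))` -/
  γ : ℕ → ℕ
  /-- the restriction to the neighbourhood `D_(n+1)` of `D`; `O(b D)` is `O(G')` -/
  rs : ∀ a n : ℕ, (Fin (γ a) → ℂ) → Fin (N.C.h 0 (n + 1) (b * a : ℕ)) → ℂ
  lin_rs : ∀ a n, Lin (rs a n)
  /-- If `b a = l + n + 1` then the part of weight zero of `O(b a D)` on `D_(n+1)` is the quotient of
  `O(a G')` by the canonical sheaf `K` of `Y'`, because `K_V = l D`. As `Y'` has rational singularities,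
  `H^1(Y', K)` is dual to `H^3(Y', O) = H^3(X, O)`, which is dual to `H^1(X, O_X) = 0`. -/
  onto : ∀ a n : ℕ, b * a = l + n + 1 → ∀ y, ∃ u, rs a n u = y
  /-- the section with the divisor `a G'` -/
  can : ∀ a n : ℕ, 0 < a → ∃ u, u ≠ 0 ∧ N.C.one 0 _ n (rs a n u) = 0
  /-- The pull back of `K_(Y') + S' = c G'` to a common resolution is less than or equal to the pull back
  of the effective divisor `K_Y + S`, and this is less than or equal to a multiple of the pull back of
  `D`. So the sections of `O(a G')` give sections of a multiple of `D`. -/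
  le : ∀ a : ℕ, 0 < a → ∃ m : ℕ, 0 < m ∧ γ a ≤ X.h 0 (m • x)

/-- A smooth projective fourfold `X` with `K_X ~ 0` and `H^1(X, O_X) = 0`. -/
structure Four (r : ℕ) extends Given r where
  dim : X.n = 4
  /-- the intersection number of four line bundles, an ample line bundle, and the number `c_2(X).x^2` -/
  Q : X.P → X.P → X.P → X.P → ℤ
  A : X.P
  c : X.P → ℤ
  nonneg : ∀ x, X.Nef x → 0 ≤ Q x x x x
  /-- Miyaoka 1987: `c_2(X)` is nonnegative on nef classes, as `K_X` is nef (for `K_X ~ 0` also by Yau 1978) -/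
  miyaoka : ∀ x, X.Nef x → 0 ≤ c x
  /-- Riemann-Roch theorem -/
  rr : ∀ x (m : ℕ), 24 * X.chi (m • x) = m ^ 4 * Q x x x x + m ^ 2 * c x + 24 * X.chi 0
  /-- `X` is connected -/
  one : X.h 0 0 = 1
  reg : X.h 1 0 = 0
  /-- Serre duality, `K_X ~ 0` -/
  serre : ∀ i, i ≤ 4 → X.h (4 - i) 0 = X.h i 0
  /-- Kawamata-Viehweg vanishing theorem (1982) and `K_X ~ 0`: if `x^3.A` is not zero then the numerical
  dimension of `x` is at least three -/
  kv : ∀ x, X.Nef x → Q x x x A ≠ 0 → ∀ m i : ℕ, 0 < m → 2 ≤ i → X.h i (m • x) = 0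
  /-- If `h^0(m x) ≥ 2` let `D` be an effective divisor in the class `m x`, and `ε > 0` small. Then
  `K_X + ε D` is nef, `(X, ε D)` is klt and the Kodaira dimension is at least `1 = dim X - 3`, so it is
  semiample (Fukuda 2002, on numerically effective log canonical divisors; it follows from Kawamata 1985
  and the log abundance theorem for threefolds, Keel, Matsuki and McKernan 1994). -/
  fukuda : ∀ x, X.Nef x → ∀ m : ℕ, 0 < m → 2 ≤ X.h 0 (m • x) → X.Semiample x
  /-- the model -/
  model : ∀ x, X.Nef x → Q x x x A = 0 → ∀ D : X.Pr →₀ ℕ, D ≠ 0 → ∀ m : ℕ, 0 < m →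
    X.line D = m • x → Model X x

end Pool.Agent.H76.FE
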