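import Pool.Agent.H31.ND.Defs

/-!
# Effective nef divisors on fourfolds with trivial canonical class (MP_5ee2d0_ag)

`X` is a smooth projective fourfold with `K_X ~ 0` and `H^1(X, O_X) = 0`, `L` is a nef divisor, and a
positive multiple of `L` is linearly equivalent to an effective divisor. Then `L` is semiample.

## The model

Suppose `L^3 = 0` and `m L ~ E`, `E` effective and not zero. Let `f : Y → X` be a log resolution of
`(X, E)`, an isomorphism outside of `E`, and `S` the reduced sum of the components of `f^*E`. The divisor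
`K_Y + S`, where `K_Y` is given by the 4-form of `X` without zeros, is effective with support `S`. The
minimal model program for `K_Y + S` exists (Birkar, Cascini, Hacon and McKernan 2010) and stops (special
termination in dimension four: Fujino 2007, in Corti's book on flips; Kawamata 1992 and Shokurov 1996 for
threefolds), because all its steps meet `S`. Let `(Y', S')` be its end; it is `ℚ`-factorial and dlt. The divisor `K_(Y') + S' = ∑ (k_j + 1) S_j` is nef, its support is `S'`, its third
power is numerically trivial, so its restriction to the sdlt threefold `S'` has numerical dimension at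
most one. The restriction is semiample (Fujino 2000, abundance theorem for semi log canonical threefolds;
Miyaoka, Kawamata, and Keel, Matsuki and McKernan 1994 for the components). So there is a Cartier divisor
`G' = ∑ m_j S_j`, `c G' = K_(Y') + S'` with a rational number `c > 0`, `m_j ≥ 1`, such that `O_(S')(G')` is
the pull back of a very ample line bundle by `φ : S' → Z`, where `φ_* O = O_Z` and `Z` is a projective
seminormal scheme of dimension at most one.

Let `b` be a common multiple of the `m_j` with `c b` integral, and `l = c b - 1`. The root stack of order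
`b` of `(Y', G')` along `S'` is locally the quotient of `V` by the group of the `b`-th roots of unity, `V` the
normalised covering `z^b = s`, `s` a local equation of `G'`. Let `D` be the divisor of `z`, and
`D_k = k D`. `D` is reduced and Cartier, `K_V = l D`, the pair `(V, D)` is log canonical and `V` is
canonical, so Gorenstein. So `D` is semi log canonical, and it has Du Bois singularities (Kollár and
Kovács 2010); the dualising sheaf of `D_k` is the restriction of `O_V((l + k) D)`. The group `H^q(D_k, O(m D))` is the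
part of weight zero, it is `H^q` of the sheaf `O(⌊(m / b) G'⌋) / O(⌊((m - k) / b) G'⌋)` on `Y'`. In particular
`O(b D) = O(G')`.
-/

namespace Pool.Agent.H76.FE

open Pool.Agent.H31.ND

/-! ## Cohomology of the infinitesimal neighbourhoods -/

/-- Cohomology of `D_k`, a projective scheme (stack) of dimension three; `D_0` is empty. The space
`H^q(D_k, O(m D))` is `ℂ^(h q k m)`. -/
structure Coh where
  h : ℕ → ℕ → ℤ → ℕ
  /-- the restriction from `D_(k+1)` to `D_k` -/
  res : ∀ q k m, (Fin (h q (k + 1) m) → ℂ) → Fin (h q k m) → ℂ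
  /-- the connecting map of `0 → O_D((m - k) D) → O_(D_(k+1))(m D) → O_(D_k)(m D) → 0` -/
  d : ∀ q (k : ℕ) m, (Fin (h q k m) → ℂ) → Fin (h (q + 1) 1 (m - k)) → ℂ
  /-- the cup product with the classes in `H^1(D, O(-k D))` -/
  cup : ∀ q (k : ℕ) m, (Fin (h 1 1 (-k)) → ℂ) → (Fin (h q k m) → ℂ) → Fin (h (q + 1) 1 (m - k)) → ℂ
  /-- The classes `x` in `H^1(D, O(-k D))`, `k ≥ 1`, are the isomorphism classes of line bundles on
  `D_(k+1)` with a trivialisation on `D_k`. The space `H^q(D_(k+1), O(m D) ⊗ x)` is `ℂ^(hT q k m x)`. -/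
  hT : ∀ (_ k : ℕ) (_ : ℤ), (Fin (h 1 1 (-k)) → ℂ) → ℕ
  /-- the restrictions to `D_k` and to `D` -/
  rT : ∀ q k m x, (Fin (hT q k m x) → ℂ) → Fin (h q k m) → ℂ
  rD : ∀ q k m x, (Fin (hT q k m x) → ℂ) → Fin (h q 1 m) → ℂ
  /-- the inclusion of `O_(D_k)((m - 1) D)` -/
  iT : ∀ q k m x, (Fin (h q k (m - 1)) → ℂ) → Fin (hT q k m x) → ℂ
  /-- the connecting map of `0 → O_(D_k)((m - 1) D) → O_(D_(k+1))(m D) ⊗ x → O_D(m D) → 0` -/
  dl : ∀ q (k : ℕ) m, (Fin (h 1 1 (-k)) → ℂ) → (Fin (h q 1 m) → ℂ) → Fin (h (q + 1) k (m - 1)) → ℂ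
  /-- the duality pairings on `D_(k+1)` and on `D_k` -/
  pT : ∀ q q' (k : ℕ) m m' x x', (Fin (hT q k m x) → ℂ) → (Fin (hT q' k m' x') → ℂ) → ℂ
  pH : ∀ q q' k m m', (Fin (h q k m) → ℂ) → (Fin (h q' k (m' - 1)) → ℂ) → ℂ

/-- Exact sequences and duality; the dualising sheaf of `D_(k+1)` is `O((l + k + 1) D)`. -/
structure Coh.Exact (C : Coh) (l : ℕ) : Prop where
  lin_res : ∀ q k m, Lin (C.res q k m)
  lin_d : ∀ q k m, Lin (C.d q k m)
  lin_cup : ∀ q k m t, Lin fun x => C.cup q k m x t
  lin_iT : ∀ q k m x, Lin (C.iT q k m x)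
  exact : ∀ q k m t, 1 ≤ k → (C.d q k m t = 0 ↔ ∃ u, C.res q k m u = t)
  exact_rT : ∀ q k m x u, 1 ≤ k → C.d q k m (C.rT q k m x u) + C.cup q k m x (C.rT q k m x u) = 0
  exact_rD : ∀ q k m x u, 1 ≤ k → C.dl q k m x (C.rD q k m x u) = 0
  exact_iT : ∀ q k m x y, 1 ≤ k → C.iT (q + 1) k m x y = 0 → ∃ v, C.dl q k m x v = y
  inj_iT : ∀ k m x y, 1 ≤ k → C.iT 0 k m x y = 0 → y = 0
  /-- Serre duality -/
  form : ∀ q q' k m m' t, Form (C.pH q q' k m m' t)
  onto : ∀ q q' (k : ℕ) (m m' : ℤ) x x' f, 1 ≤ k → q + q' = 3 → m + m' = l + k + 1 → x + x' = 0 →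
    Form f → ∃ u, C.pT q q' k m m' x x' u = f
  inj : ∀ q q' (k : ℕ) (m m' : ℤ) t t', 1 ≤ k → q + q' = 3 → m + m' = l + k + 1 →
    C.pH q q' k m m' t = C.pH q q' k m m' t' → t = t'
  adjoint : ∀ q q' (k : ℕ) (m m' : ℤ) x x' u y, 1 ≤ k → q + q' = 3 → m + m' = l + k + 1 →
    x + x' = 0 →
    C.pH q q' k m m' (C.rT q k m x u) y = C.pT q q' k m m' x x' u (C.iT q' k m' x' y)
  /-- there is no cohomology in degrees greater than three -/
  dim : ∀ q k m, 3 < q → C.h q k m = 0

/-- the restriction from `D_(k+1)` to `D` -/
def Coh.one (C : Coh) (q : ℕ) (m : ℤ) : ∀ k, (Fin (C.h q (k + 1) m) → ℂ) → Fin (C.h q 1 m) → ℂ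
  | 0 => id
  | k + 1 => fun t => Coh.one C q m k (C.res q (k + 1) m t)

/-- all classes of degree at least `l + k + 1` on `D_k` extend to `D_(k+1)` -/
def Coh.E (C : Coh) (l k : ℕ) : Prop :=
  ∀ q (m : ℤ), (l + k + 1 : ℤ) ≤ m → ∀ t, ∃ u, C.res q k m u = t

/-- Let `s` be a section of `O(M D)` on `D_k`, `M` a multiple of `b`, whose restriction to `D` is a
general section of the pull back of a very ample line bundle on `Z`. Suppose that the divisor of `s` is
the intersection of `D_k` with a Cartier divisor `W` on `D_(k+1)`. Then `O(W) = O(M D) ⊗ x`, where `s` is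
the restriction of the section `1_W`, and `O(D) ⊗ (x / M)` is an `M`-th root of `O(W)`. Consider the
covering `y^M = 1_W` of `D_(k+1)`. Its reduction is the covering `y^M = s` of `D`, it is semi log
canonical (on the root stack), so its coarse space has Du Bois singularities (Kollár and Kovács 2010). The
direct images of the structure sheaves are the sums of the sheaves `O(m D) ⊗ (m / M) x` and `O_D(m D)`,
`-M < m ≤ 0`. -/
structure Coh.Cover (C : Coh) (k M : ℕ) (x : Fin (C.h 1 1 (-k)) → ℂ) (s : Fin (C.h 0 k M) → ℂ) where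
  /-- `s` extends to a section of `O(M D) ⊗ x` -/
  ext : C.d 0 k M s + C.cup 0 k M x s = 0
  /-- the cohomology of the covering with coefficients in `ℂ` -/
  A : ℕ → Type
  /-- and in the structure sheaf, for the coverings of `D_(k+1)` and of `D` -/
  B : ℕ → Type
  B' : ℕ → Type
  f : ∀ q, A q → B q
  g : ∀ q, B q → B' q
  /-- `H^q(ℂ) → H^q(O)` is onto for a projective scheme with Du Bois singularities (Du Bois 1981), and
  the classes of `H^q(ℂ)` lift to `H^q` of the structure sheaf of every thickening (`ℂ` is a subsheaf) -/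
  dubois : ∀ q y, ∃ u, g q (f q u) = y
  /-- the projections to the eigenspaces of the group of the `M`-th roots of unity -/
  e : ∀ q (m : ℤ), B q → Fin (C.hT q k m (((m : ℂ) / M) • x)) → ℂ
  e' : ∀ q (m : ℤ), B' q → Fin (C.h q 1 m) → ℂ
  e_g : ∀ q (m : ℤ) y, -(M : ℤ) < m → m ≤ 0 → e' q m (g q y) = C.rD q k m _ (e q m y)
  e_onto : ∀ q (m : ℤ) y, -(M : ℤ) < m → m ≤ 0 → ∃ u, e' q m u = y

/-! ## The direct images on `Z` -/

/-- The direct images of the sheaves `O_(D_k)(m D)`. `Z` has dimension zero or one. -/
structure Img where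
  /-- the points of `Z` -/
  Z : Type
  /-- The general points: they are on the curves of `Z`, which are smooth there, all direct images of
  the sheaves `O_D(m D)` are locally free, and `D → Z` is topologically locally trivial. An element of
  `G` is a general point together with a coordinate `t` with the centre in this point, and a
  trivialisation of the line bundle `O(b D)` near the fibre (on the neighbourhoods `D_k` on which it is
  needed). If `Z` is a point then `G` is empty. -/
  G : Type
  pt : G → Z
  /-- If `z` is a general point: `H^q` of the formal completion of `D_k` along the fibre over `z`, with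
  coefficients in `O(m D)` (by the theorem on formal functions the completion of the direct image). For all other points `z` let `Δ_z` be a small Stein neighbourhood of `z`: `H^q`
  of the part of `D_k` over `Δ_z`, with coefficients in `O(m D)`. -/
  R : (q k : ℕ) → (m : ℤ) → Z → Type
  [grp : ∀ q k m z, AddCommGroup (R q k m z)]
  /-- the restriction from `D_(k+1)` to `D_k` -/
  res : ∀ q k m z, R q (k + 1) m z → R q k m z
  /-- the inclusion of `O_(D_k)((m - 1) D)` in `O_(D_(k+1))(m D)`: the product with the equation of `D` -/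
  mz : ∀ q k m z, R q k (m - 1) z → R q (k + 1) m z

attribute [instance] Img.grp

/-- the restriction from `D_(k+1)` to `D` -/
def Img.one (I : Img) (q : ℕ) (m : ℤ) (z : I.Z) : ∀ k, I.R q (k + 1) m z → I.R q 1 m z
  | 0 => id
  | k + 1 => fun y => Img.one I q m z k (I.res q (k + 1) m z y)

/-- `D_0` is empty, and the cohomology sequence of `0 → O_(D_k)((m - 1) D) → O_(D_(k+1))(m D) → O_D(m D) → 0`
is exact. -/
structure Img.Exact (I : Img) : Prop where
  add_res : ∀ q k m z, Add (I.res q k m z)
  zero : ∀ q m z (y : I.R q 0 m z), y = 0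
  ker : ∀ q k m z y, I.one q m z k y = 0 → ∃ v, I.mz q k m z v = y

/-- The direct images of the sheaves on `D_(k+1)` are mapped onto the direct images of the sheaves on
`D_k`. -/
def Img.S (I : Img) (k : ℕ) : Prop := ∀ q m z y, ∃ u, I.res q k m z u = y

/-! ## The first obstruction -/

/-- The functions on the formal neighbourhood of a point with the coordinate `t`. -/
abbrev Fun := PowerSeries ℂ

/-- the function `a + t` -/
noncomputable def co (a : ℂ) : Fun := PowerSeries.C a + PowerSeries.X

/-- the derivative of a vector with respect to `t` -/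
noncomputable def der {r : ℕ} (v : Fin r → Fun) : Fin r → Fun := fun i => PowerSeries.derivative ℂ (v i)

/-- a constant vector -/
noncomputable def cst {r : ℕ} (v : Fin r → ℂ) : Fin r → Fun := fun i => PowerSeries.C (v i)

/-- maps between free modules over the ring of functions -/
def FLin {p q : ℕ} (f : (Fin p → Fun) → Fin q → Fun) : Prop :=
  (∀ x y, f (x + y) = f x + f y) ∧ ∀ (t : Fun) x, f (t • x) = t • f x

/-- The obstruction to the extension of functions from `D_k` to `D_(k+1)`, `k = n + 1`, where the direct
images of the sheaves on `D_(j+1)` are mapped onto those on `D_j` for all `j < k`.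

Near the fibre over `z` the line bundle `O(b D)` is trivial on `D_k`; for a general point the
trivialisation is given, for a special point choose one over the whole of `Δ_z`. Then `O(D)` is the
product of the structure sheaf of `D_k` and of a local system of rank one whose `b`-th power is trivial
(a line bundle on the root stack, `O(b D) = O(G')`).
Let `ρ` be its power with the exponent `a = l + k + 1`. So `R 1 j a z`, `j ≤ k`, is also `H^1` of
`ρ ⊗ O_(D_j)`, and `ρ ⊗ O_D(-k D)` is the dualising sheaf of `D`. The local system `R^1 φ_* ρ` on the general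
points is an admissible variation of mixed Hodge structures of weights zero and one (Deligne 1974,
Steenbrink and Zucker 1985; `F^0 / F^1` is `R^1` of `ρ ⊗ O_D` as the fibres of `D` are Du Bois); another
trivialisation multiplies its image in `R 1 1 a z` by a function without zeros. -/
structure Symbol (I : Img) (n : ℕ) (a : ℤ) where
  /-- at a general point: the ranks of `R^1` of `O_D(-k D)` and of `ρ ⊗ O_D`, with bases of these free
  modules, and the rank of the local system `R^1 φ_* ρ`, with a basis of flat sections; `𝓥` is its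
  vector bundle -/
  rC : I.G → ℕ
  rB : I.G → ℕ
  rV : I.G → ℕ
  /-- the functions on `D`, and the coordinates of `R^1` of `ρ ⊗ O_D` -/
  fn : ∀ g, I.R 0 1 0 (I.pt g) → Fun
  cb : ∀ g, I.R 1 1 a (I.pt g) → Fin (rB g) → Fun
  /-- the cup product with values in `R^2` of the dualising sheaf and the trace: the coefficient of `dt`
  of a 1-form -/
  pair : ∀ g, (Fin (rC g) → Fun) → (Fin (rB g) → Fun) → Fun
  /-- the products with a function on `D_k` -/
  mf : ∀ g, I.R 0 (n + 1) 0 (I.pt g) → I.R 0 (n + 1) 0 (I.pt g) → I.R 0 (n + 1) 0 (I.pt g)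
  mb : ∀ g, I.R 0 (n + 1) 0 (I.pt g) → I.R 1 (n + 1) a (I.pt g) → I.R 1 (n + 1) a (I.pt g)
  /-- the connecting maps of the sequences `0 → O_D(-k D) → O_(D_(k+1)) → O_(D_k) → 0` and
  `0 → ρ ⊗ O_D(-k D) → ρ ⊗ O_(D_(k+1)) → ρ ⊗ O_(D_k) → 0`; the second one with the trace -/
  d : ∀ g, I.R 0 (n + 1) 0 (I.pt g) → Fin (rC g) → Fun
  dd : ∀ g, I.R 1 (n + 1) a (I.pt g) → Fun
  /-- the classes of the flat sections on `D_k` -/
  fl : ∀ g, (Fin (rV g) → ℂ) → I.R 1 (n + 1) a (I.pt g)
  /-- the projection from `𝓥` to `R^1` of `ρ ⊗ O_D`; its kernel is `F^1` -/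
  pr : ∀ g, (Fin (rV g) → Fun) → Fin (rB g) → Fun
  /-- the part of weight zero -/
  W : ∀ g, Set (Fin (rV g) → Fun)
  /-- the points on the curves of `Z` which are not general, and the branches of the curves there -/
  Sp : Type
  sp : Sp → I.Z
  Br : Sp → Type
  /-- A general point near the special point `z` on the branch, such that `t + a_z` is a coordinate of
  the branch with the centre `z` for a number `a_z`, and the trivialisation of `O(b D)` is the
  restriction of the one over `Δ_z`. -/
  near : ∀ z, Br z → I.G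
  az : ∀ z, Br z → ℂ
  /-- the expansions at `near z β` of the functions which are holomorphic on the branch of `Δ_z` -/
  Reg : ∀ z, Br z → Set Fun
  /-- the expansions of the sections of Deligne's extension of `𝓥` to the branch of `Δ_z`, such that the
  eigenvalues of the residue are in `(0, 1]` (Deligne 1970) -/
  Lat : ∀ z β, Set (Fin (rV (near z β)) → Fun)
  rho : ∀ z β j, I.R 1 j a (sp z) → I.R 1 j a (I.pt (near z β))
  /-- the sections of the dualising sheaf of `Z` on `Δ_z`, the connecting map and the trace, and the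
  coefficient of `dt` -/
  Om : Sp → Type
  om : ∀ z, I.R 1 (n + 1) a (sp z) → Om z
  rs : ∀ z, Br z → Om z → Fun
  /-- the family `c_z` is a section of `R^1 φ_* O_D(-k D) ⊗ T_Z` over the general points of `Z`; there
  `c_z ⊗ d/dt` -/
  Glob : (∀ g, Fin (rC g) → Fun) → Prop

/-- The rules at a general point. -/
structure Symbol.Gen {I : Img} {n : ℕ} {a : ℤ} (A : Symbol I n a) : Prop where
  /-- `φ_* O_D = O_Z` -/
  fn_add : ∀ g x y, A.fn g (x + y) = A.fn g x + A.fn g y
  fn_inj : ∀ g x, A.fn g x = 0 → x = 0
  fn_onto : ∀ g f, ∃ x, A.fn g x = f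
  cb_add : ∀ g, Add (A.cb g)
  cb_inj : ∀ g x, A.cb g x = 0 → x = 0
  pr_lin : ∀ g, FLin (A.pr g)
  pair_add : ∀ g c x y, A.pair g c (x + y) = A.pair g c x + A.pair g c y
  pair_smul : ∀ g (t : Fun) c x, A.pair g (t • c) x = t * A.pair g c x
  pair_smul' : ∀ g (t : Fun) c x, A.pair g c (t • x) = t * A.pair g c x
  fn_mf : ∀ g x y, A.fn g (I.one 0 0 _ n (A.mf g x y)) =
    A.fn g (I.one 0 0 _ n x) * A.fn g (I.one 0 0 _ n y)
  cb_mb : ∀ g x y, A.cb g (I.one 1 a _ n (A.mb g x y)) =
    A.fn g (I.one 0 0 _ n x) • A.cb g (I.one 1 a _ n y)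
  /-- the connecting maps are derivations -/
  d_add : ∀ g, Add (A.d g)
  d_mf : ∀ g x y, A.d g (A.mf g x y) =
    A.fn g (I.one 0 0 _ n x) • A.d g y + A.fn g (I.one 0 0 _ n y) • A.d g x
  /-- constants extend -/
  d_cst : ∀ g (c : ℂ), ∃ x, A.fn g (I.one 0 0 _ n x) = PowerSeries.C c ∧ A.d g x = 0
  dd_add : ∀ g x y, A.dd g (x + y) = A.dd g x + A.dd g y
  dd_mb : ∀ g x y, A.dd g (A.mb g x y) =
    A.fn g (I.one 0 0 _ n x) * A.dd g y + A.pair g (A.d g x) (A.cb g (I.one 1 a _ n y))
  exact_d : ∀ g x, A.d g x = 0 → ∃ u, I.res 0 (n + 1) 0 _ u = x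
  /-- a class on `D_k` with values in `O(-D)`, multiplied with the equation of `D`, is a class on
  `D_(k+1)` -/
  d_mz : ∀ g u, A.d g (I.mz 0 n 0 _ (I.res 0 n (0 - 1) _ u)) = 0
  dd_mz : ∀ g u, A.dd g (I.mz 1 n a _ (I.res 1 n (a - 1) _ u)) = 0
  /-- a flat section gives a class on `D_(k+1)`, as `ρ` is a local system -/
  dd_fl : ∀ g w, A.dd g (A.fl g w) = 0
  cb_fl : ∀ g w, A.cb g (I.one 1 a _ n (A.fl g w)) = A.pr g (cst w)
  /-- Serre duality for the general fibres, and `𝓥 → R^1` is onto -/
  dual : ∀ g c, (∀ v, A.pair g c (A.pr g v) = 0) → c = 0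

/-- The rules at a special point `z`. -/
structure Symbol.Spec {I : Img} {n : ℕ} {a : ℤ} (A : Symbol I n a) : Prop where
  rho_res : ∀ z β j u, A.rho z β j (I.res 1 j a _ u) = I.res 1 j a _ (A.rho z β (j + 1) u)
  rs_om : ∀ z β u, A.rs z β (A.om z u) = A.dd (A.near z β) (A.rho z β (n + 1) u)
  /-- A section of the dualising sheaf of the seminormal curve is a system of 1-forms on the branches
  with at most simple poles, and the sum of the residues is zero. -/
  residue : ∀ z β ω, (∀ β', β' ≠ β → A.rs z β' ω = 0) → A.rs z β ω ∈ A.Reg z β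
  /-- the eigenvalues of the residue are positive, so the product of the coordinate of the branch and of
  `∇_(d/dt)` is bijective -/
  onto : ∀ z β, ∀ e ∈ A.Lat z β, ∃ e' ∈ A.Lat z β, co (A.az z β) • der e' = e
  /-- Let `D_z` be the fibre of `D` over `z`. The Du Bois complex `Ω^0` of the pair `(D, D_z)` is the sum of
  its parts on the branches, and `R^1` of its product with `ρ` is the quotient of Deligne's extension by
  the extension of `F^1` (Steenbrink 1977, Kollár 1986, Saito 1990; for pairs see Kovács 2011, Fujino and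
  Fujisawa 2014). It maps to the Du Bois complex of `D`, which is `O_D` (Kollár and Kovács 2010). -/
  cls : ∀ z β, ∀ e ∈ A.Lat z β, ∃ u, A.cb _ (A.rho z β 1 u) = A.pr _ e ∧
    ∀ β', β' ≠ β → A.cb _ (A.rho z β' 1 u) = 0

/-- The family of the linear forms `c_z` on `𝓥` is regular at the special points. -/
def Symbol.Bdd {I : Img} {n : ℕ} {a : ℤ} (A : Symbol I n a) (c : ∀ g, Fin (A.rC g) → Fun) : Prop :=
  ∀ z β, ∀ e ∈ A.Lat z β, ∃ f ∈ A.Reg z β, A.pair _ (c _) (A.pr _ e) = co (A.az z β) * f

/-- Let `c` be a global section of `R^1 φ_* O_D(-k D) ⊗ T_Z` on the general points of `Z`. It is a linear form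
on `R^1 φ_* O_D(a D)`. Over every curve in `Z` let `s` be a multivalued section of the line bundle of
positive degree of which `O_D(a D)` is locally the product with `ρ`, such that a power of `s` is a
section which has zeros in general points. So `λ = c(s)` is a linear form on `𝓥`, with values in
functions, up to roots of unity. If `c` is regular at the special points then `λ` is a section of
Deligne's extension of the dual, with the eigenvalues of the residue in `[0, 1)`, so its Hodge norm is
`O(|log |t||^N)` (Schmid 1973; Steenbrink and Zucker 1985 for the graded parts of an admissible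
variation). -/
structure Symbol.Hodge {I : Img} {n : ℕ} {a : ℤ} (A : Symbol I n a) : Prop where
  /-- `c(dt)` for the symbol -/
  glob : ∀ τ : ∀ g, I.R 0 (n + 1) 0 (I.pt g), (∀ g, A.fn g (I.one 0 0 _ n (τ g)) = PowerSeries.X) →
    A.Glob fun g => A.d g (τ g)
  /-- The part of weight zero is a unitary flat bundle, `log |λ|` is subharmonic on the curve, and it is
  `-∞` at the zeros of `s`. -/
  w0 : ∀ c, A.Glob c → A.Bdd c → ∀ g, ∀ v ∈ A.W g, A.pair g (c g) (A.pr g v) = 0
  /-- A linear form on the part of weight one which is zero on `F^1` and on `∇ F^1` is a section of a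
  Hodge bundle of the dual in the kernel of the Higgs field, and `log |λ|` is subharmonic (the curvature
  formula of Griffiths 1970; Simpson 1990; Zuo 2000, negativity of kernels of Kodaira-Spencer maps). -/
  w1 : ∀ c, A.Glob c → A.Bdd c → (∀ g, ∀ v ∈ A.W g, A.pair g (c g) (A.pr g v) = 0) →
    (∀ g v, A.pr g v = 0 → A.pair g (c g) (A.pr g (der v)) = 0) →
    ∀ g v, A.pair g (c g) (A.pr g v) = 0

/-! ## The whole structure -/

/-- The infinitesimal neighbourhoods of `D`. -/
structure Nbhd (l b : ℕ) where
  C : Coh
  cex : C.Exact l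
  I : Img
  iex : I.Exact
  b_pos : 0 < b
  /-- the sections of `O(M D)` on `D_k` whose restriction to `D` is general, `M` a multiple of `b` -/
  Gn : ∀ k M : ℕ, Set (Fin (C.h 0 k M) → ℂ)
  /-- if all sections on `D` are restrictions then the sections with general restriction are dense -/
  diff : ∀ k M : ℕ, 0 < M → b ∣ M → (∀ y, ∃ u, C.one 0 M k u = y) →
    ∀ u, ∃ s ∈ Gn (k + 1) M, ∃ s' ∈ Gn (k + 1) M, u = s - s'
  /-- If the functions on `D_k` extend to `D_(k+1)` near the fibres over the general points of `Z` then
  the divisor of `s`, which is a union of fibres over such points, extends. (The obstruction is a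
  derivation with values in a finitely generated module; so it is enough to know this for the formal
  completions.) -/
  cover : ∀ k M : ℕ, 1 ≤ k → 0 < M → b ∣ M → (∀ j, j < k → I.S j) →
    (∀ g f, ∃ u, I.res 0 k 0 (I.pt g) u = f) → ∀ s ∈ Gn k M, ∃ x, Nonempty (C.Cover k M x s)
  /-- if `s` extends to a section `u` on `D_(k+1)` let `W` be the divisor of `u` -/
  cover_zero : ∀ k M : ℕ, 1 ≤ k → 0 < M → b ∣ M → ∀ s ∈ Gn k M, (∃ u, C.res 0 k M u = s) →
    Nonempty (C.Cover k M 0 s)
  /-- Serre's theorems A and B and Leray's spectral sequence: if the classes of large degree on `D_k` extend to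
  `D_(k+1)` then the direct images are mapped onto each other. [The direct images on `D_k` are
  successive extensions of coherent sheaves on `Z`. The connecting map is zero on the global sections
  of large degree, so it is zero on their quotients, and so on all functions on `D_k`, as it is a
  derivation with values in a coherent sheaf (Krull); so it is linear over the functions, and the
  global classes of large degree generate.] -/
  serre : ∀ k, 1 ≤ k → (∀ j, j < k → I.S j) →
    (∀ q, ∃ m₀ : ℤ, ∀ m, m₀ ≤ m → ∀ t, ∃ u, C.res q k m u = t) → I.S k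
  symbol : ∀ n : ℕ, (∀ j, j < n + 1 → I.S j) → (∀ j, 1 ≤ j → j < n + 1 → C.E l j) →
    Symbol I n (l + n + 2)
  gen : ∀ n h h', (symbol n h h').Gen
  spec : ∀ n h h', (symbol n h h').Spec
  hodge : ∀ n h h', (symbol n h h').Hodge

end Pool.Agent.H76.FE
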