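import Pool.Agent.H76.FE.Defs

/-! Cyclic coverings branched along general fibres (after helper31's Extend.lean). -/

namespace Pool.Agent.H76.FE

open Pool.Agent.H31.ND

/-- a linear form on a subspace extends -/
lemma extend_form {p q : ℕ} {f : (Fin p → ℂ) → Fin q → ℂ} (hf : Lin f)
    (hi : ∀ v, f v = 0 → v = 0) {g : (Fin p → ℂ) → ℂ} (hg : Form g) :
    ∃ g' : (Fin q → ℂ) → ℂ, Form g' ∧ ∀ v, g' (f v) = g v := by
  let F : (Fin p → ℂ) →ₗ[ℂ] (Fin q → ℂ) := { toFun := f, map_add' := hf.1, map_smul' := hf.2 }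
  let Gf : (Fin p → ℂ) →ₗ[ℂ] ℂ :=
    { toFun := g, map_add' := hg.1, map_smul' := fun t x => by simp [hg.2 t x] }
  have hker : LinearMap.ker F = ⊥ := by
    rw [LinearMap.ker_eq_bot']
    exact hi
  obtain ⟨G', hG'⟩ := LinearMap.exists_leftInverse_of_injective F hker
  refine ⟨fun y => Gf (G' y), ⟨fun x y => by simp, fun t x => by simp⟩, fun v => ?_⟩
  have := congrArg (fun T => T v) hG'
  simp only [LinearMap.comp_apply, LinearMap.id_apply] at this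
  change Gf (G' (F v)) = g v
  rw [this]
  rfl

lemma lin_zero {p q : ℕ} {f : (Fin p → ℂ) → Fin q → ℂ} (hf : Lin f) : f 0 = 0 := by
  have := hf.2 0 0
  simpa using this

lemma lin_neg {p q : ℕ} {f : (Fin p → ℂ) → Fin q → ℂ} (hf : Lin f) (x : Fin p → ℂ) :
    f (-x) = - f x := by
  have := hf.2 (-1) x
  simpa using this

lemma lin_sub {p q : ℕ} {f : (Fin p → ℂ) → Fin q → ℂ} (hf : Lin f) (x y : Fin p → ℂ) :
    f (x - y) = f x - f y := by
  rw [sub_eq_add_neg, hf.1, lin_neg hf, ← sub_eq_add_neg]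

variable {l b : ℕ}

section Cover

variable {C : Coh} {k M : ℕ} {x : Fin (C.h 1 1 (-k)) → ℂ} {s : Fin (C.h 0 k M) → ℂ}

/-- `H^q(D_(k+1), O(m D) ⊗ (m / M) x) → H^q(D, O(m D))` is onto for `-M < m ≤ 0` -/
lemma Coh.Cover.onto_rD (c : C.Cover k M x s) (q : ℕ) (m : ℤ) (h1 : -(M : ℤ) < m) (h2 : m ≤ 0)
    (w : Fin (C.h q 1 m) → ℂ) : ∃ u, C.rD q k m (((m : ℂ) / M) • x) u = w := by
  obtain ⟨y, rfl⟩ := c.e_onto q m w h1 h2
  obtain ⟨a, rfl⟩ := c.dubois q y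
  exact ⟨c.e q m (c.f q a), (c.e_g q m _ h1 h2).symm⟩

lemma Coh.Cover.inj_iT (c : C.Cover k M x s) (hC : C.Exact l) (hk : 1 ≤ k) (q : ℕ) (m : ℤ)
    (h1 : -(M : ℤ) < m) (h2 : m ≤ 0) (y) (hy : C.iT q k m (((m : ℂ) / M) • x) y = 0) : y = 0 := by
  rcases q with _ | q
  · exact hC.inj_iT k m _ y hk hy
  · obtain ⟨v, rfl⟩ := hC.exact_iT q k m _ y hk hy
    obtain ⟨u, rfl⟩ := c.onto_rD q m h1 h2 v
    exact hC.exact_rD q k m _ u hk

/-- every class of degree `m = l + k + 1 - m'` extends to the twisted line bundle -/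
lemma Coh.Cover.onto_rT (c : C.Cover k M x s) (hC : C.Exact l) (hk : 1 ≤ k) (q : ℕ) (hq : q ≤ 3)
    (m m' : ℤ) (hm : m + m' = l + k + 1) (h1 : -(M : ℤ) < m') (h2 : m' ≤ 0)
    (t : Fin (C.h q k m) → ℂ) : ∃ u, C.rT q k m (-(((m' : ℂ) / M) • x)) u = t := by
  obtain ⟨q', hq'⟩ := Nat.exists_eq_add_of_le hq
  obtain ⟨f, hf, hfv⟩ := extend_form (hC.lin_iT q' k m' (((m' : ℂ) / M) • x))
    (c.inj_iT hC hk q' m' h1 h2) (hC.form q q' k m m' t)
  obtain ⟨u, hu⟩ := hC.onto q q' k m m' (-(((m' : ℂ) / M) • x)) (((m' : ℂ) / M) • x) f hk hq'.symm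
    hm (neg_add_cancel _) hf
  refine ⟨u, hC.inj q q' k m m' _ _ hk hq'.symm hm ?_⟩
  funext y
  rw [hC.adjoint q q' k m m' _ _ u y hk hq'.symm hm (neg_add_cancel _), hu, hfv]

lemma Coh.Cover.d_eq (c : C.Cover k M x s) (hC : C.Exact l) (hk : 1 ≤ k) (q : ℕ) (hq : q ≤ 3)
    (m m' : ℤ) (hm : m + m' = l + k + 1) (h1 : -(M : ℤ) < m') (h2 : m' ≤ 0)
    (t : Fin (C.h q k m) → ℂ) : C.d q k m t = ((m' : ℂ) / M) • C.cup q k m x t := by
  obtain ⟨u, rfl⟩ := c.onto_rT hC hk q hq m m' hm h1 h2 t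
  have h := hC.exact_rT q k m _ u hk
  have e1 := lin_neg (hC.lin_cup q k m (C.rT q k m (-(((m' : ℂ) / M) • x)) u)) (((m' : ℂ) / M) • x)
  have e2 := (hC.lin_cup q k m (C.rT q k m (-(((m' : ℂ) / M) • x)) u)).2 ((m' : ℂ) / M) x
  simp only at e1 e2
  rw [e1, e2] at h
  exact sub_eq_zero.mp ((sub_eq_add_neg _ _).trans h)

/-- the section extends -/
lemma Coh.Cover.extends_ (c : C.Cover k M x s) (hC : C.Exact l) (hk : 1 ≤ k)
    (hM : l + k + 1 ≤ M) : ∃ u, C.res 0 k M u = s := by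
  rw [← hC.exact 0 k M s hk]
  have h1 := c.d_eq hC hk 0 (Nat.zero_le _) M ((l : ℤ) + k + 1 - M) (by ring) (by omega) (by omega) s
  have h2 : C.d 0 k M s = - C.cup 0 k M x s := eq_neg_of_add_eq_zero_left c.ext
  have hM0 : (M : ℂ) ≠ 0 := by
    have : M ≠ 0 := by omega
    exact_mod_cast this
  have h3 : ((((l : ℤ) + k + 1 - M : ℤ) : ℂ) / M + 1) • C.cup 0 k M x s = 0 := by
    rw [add_smul, one_smul, ← h1, h2]
    abel
  have h4 : ((((l : ℤ) + k + 1 - M : ℤ) : ℂ) / M + 1) ≠ 0 := by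
    have e : ((((l : ℤ) + k + 1 - M : ℤ) : ℂ) / M + 1) = ((l + k + 1 : ℕ) : ℂ) / M := by
      push_cast
      field_simp
      ring
    rw [e]
    exact div_ne_zero (Nat.cast_ne_zero.mpr (Nat.succ_ne_zero (l + k))) hM0
  rw [h2, (smul_eq_zero.mp h3).resolve_left h4, neg_zero]

end Cover

lemma Coh.one_lin (C : Coh) (hC : C.Exact l) (q : ℕ) (m : ℤ) : ∀ k, Lin (C.one q m k)
  | 0 => ⟨fun _ _ => rfl, fun _ _ => rfl⟩
  | k + 1 => by
    have h := C.one_lin hC q m k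
    have h' := hC.lin_res q (k + 1) m
    refine ⟨fun x y => ?_, fun t x => ?_⟩
    · change C.one q m k (C.res q (k + 1) m (x + y)) = _
      rw [h'.1, h.1]
      rfl
    · change C.one q m k (C.res q (k + 1) m (t • x)) = _
      rw [h'.2, h.2]
      rfl

lemma Coh.one_onto (C : Coh) (q : ℕ) (m : ℤ) (k : ℕ)
    (h : ∀ j, 1 ≤ j → j < k + 1 → ∀ t, ∃ u, C.res q j m u = t) :
    ∀ y, ∃ u, C.one q m k u = y := by
  induction k with
  | zero => exact fun y => ⟨y, rfl⟩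
  | succ k ih =>
    intro y
    obtain ⟨v, rfl⟩ := ih (fun j h1 h2 => h j h1 (by omega)) y
    obtain ⟨u, rfl⟩ := h (k + 1) (by omega) (by omega) v
    exact ⟨u, rfl⟩

/-- If the functions extend over the general points then all classes of degree at least `l + k + 1`
extend from `D_k` to `D_(k+1)`. -/
theorem Nbhd.extend (N : Nbhd l b) (k : ℕ) (hk : 1 ≤ k) (hE : ∀ j, 1 ≤ j → j < k → N.C.E l j)
    (hS : ∀ j, j < k → N.I.S j) (hL : ∀ g f, ∃ u, N.I.res 0 k 0 (N.I.pt g) u = f) : N.C.E l k := by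
  obtain ⟨k, rfl⟩ : ∃ n, k = n + 1 := ⟨k - 1, by omega⟩
  have hb := N.b_pos
  -- the sections
  have hdiff : ∀ M : ℕ, b ∣ M → l + (k + 1) + 1 ≤ M → ∀ u, ∃ s ∈ N.Gn (k + 1) M,
      ∃ s' ∈ N.Gn (k + 1) M, u = s - s' := by
    intro M hbM hM
    refine N.diff k M (by omega) hbM (N.C.one_onto 0 M k fun j h1 h2 t => ?_)
    exact hE j h1 h2 0 M (by omega) t
  have hsec : ∀ M : ℕ, b ∣ M → l + (k + 1) + 1 ≤ M → ∀ s ∈ N.Gn (k + 1) M,
      ∃ u, N.C.res 0 (k + 1) M u = s := by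
    intro M hbM hM s hs
    obtain ⟨x, ⟨c⟩⟩ := N.cover (k + 1) M hk (by omega) hbM hS hL s hs
    exact c.extends_ N.cex hk hM
  intro q m hm t
  by_cases hq : q ≤ 3
  · obtain ⟨j, hj⟩ := Int.eq_ofNat_of_zero_le (by omega : 0 ≤ m - (l + (k + 1 : ℕ) + 1))
    -- a large multiple of `b`
    set M : ℕ := b * (j + l + (k + 1) + 2) with hMdef
    have hMle : j + l + (k + 1) + 2 ≤ M := Nat.le_mul_of_pos_left _ hb
    have hbM : b ∣ M := Dvd.intro _ rfl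
    obtain ⟨s, hs, -⟩ := hdiff M hbM (by omega) 0
    obtain ⟨c⟩ := N.cover_zero (k + 1) M hk (by omega) hbM s hs (hsec M hbM (by omega) s hs)
    have e0 := lin_zero (N.cex.lin_cup q (k + 1) m t)
    rw [← N.cex.exact q (k + 1) m t hk,
      c.d_eq N.cex hk q hq m (-j) (by push_cast at hj ⊢; omega) (by omega) (by omega) t, e0,
      smul_zero]
  · have h0 := N.cex.dim q (k + 1) m (by omega)
    refine ⟨0, ?_⟩
    funext i
    exact (Fin.cast h0 i).elim0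

end Pool.Agent.H76.FE
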