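import Pool.Agent.H31.ND.Main
import Pool.Agent.H60.FF.Nu3
import Pool.Agent.H76.FE.Top
import Pool.Agent.H76.FE.Tow

namespace Pool.Agent.H76.FE

open Pool.Agent.H31.ND

/-- There is a second section. -/
theorem Model.two {r : ℕ} {X : Var r} {x : X.P} (M : Model X x) :
    ∃ m : ℕ, 0 < m ∧ 2 ≤ X.h 0 (m • x) := by
  obtain ⟨a, n, ha, hn⟩ : ∃ a n : ℕ, 0 < a ∧ M.b * a = M.l + n + 1 := by
    have hb := M.N.b_pos
    refine ⟨M.l + 1, M.b * (M.l + 1) - (M.l + 1), Nat.succ_pos _, ?_⟩
    have : M.l + 1 ≤ M.b * (M.l + 1) := Nat.le_mul_of_pos_left _ hb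
    omega
  have h0 := M.nonzero a ha
  obtain ⟨y, hy⟩ : ∃ y : Fin (M.N.C.h 0 1 (M.b * a : ℕ)) → ℂ, y ≠ 0 :=
    ⟨fun _ => 1, fun h => one_ne_zero (congrFun h ⟨0, h0⟩)⟩
  obtain ⟨u, hu⟩ := M.N.lift (M.b * a : ℕ) n (by rw [hn]; push_cast; linarith) y
  obtain ⟨s, hs⟩ := M.onto a n hn u
  obtain ⟨t, ht, ht'⟩ := M.can a n ha
  obtain ⟨m, hm, hle⟩ := M.le a ha
  refine ⟨m, hm, le_trans ?_ hle⟩
  have hone : Lin (M.N.C.one 0 (M.b * a : ℕ) n) := M.N.C.one_lin M.N.cex 0 _ n
  have hli : LinearIndependent ℂ ![t, s] := by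
    rw [LinearIndependent.pair_iff]
    intro p q h
    have h1 := congrArg (fun v => M.N.C.one 0 _ n (M.rs a n v)) h
    beta_reduce at h1
    rw [(M.lin_rs a n).1, (M.lin_rs a n).2, (M.lin_rs a n).2, hone.1, hone.2, hone.2, ht', hs, hu,
      lin_zero (M.lin_rs a n), lin_zero hone, smul_zero, zero_add] at h1
    have hq : q = 0 := (smul_eq_zero.mp h1).resolve_right hy
    rw [hq, zero_smul, add_zero] at h
    exact ⟨(smul_eq_zero.mp h).resolve_right ht, hq⟩
  have := hli.fintype_card_le_finrank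
  rwa [Module.finrank_fin_fun, Fintype.card_fin] at this

/-- The cohomology of the multiples of a nef line bundle. -/
def Four.multiples {r : ℕ} (F : Four r) (x : F.X.P) (hx : F.X.Nef x) :
    Pool.Agent.H60.FF.Multiples (F.Q x x x F.A ≠ 0) (F.X.Semiample x) where
  h i m := F.X.h i (m • x)
  d := F.Q x x x x
  c := F.c x
  d_nonneg := F.nonneg x hx
  c_nonneg := F.miyaoka x hx
  rr m := by
    have h := F.rr x m
    unfold Var.chi at h
    rw [F.dim, Finset.sum_range, Finset.sum_range] at h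
    simp only [zero_smul]
    exact h
  one := by rw [zero_smul]; exact F.one
  reg := by rw [zero_smul]; exact F.reg
  serre i := by
    rw [zero_smul]
    have h := F.serre i (by omega)
    have e : ((Fin.rev i : Fin 5) : ℕ) = 4 - i := by rw [Fin.val_rev]; omega
    rw [e]
    exact h
  kv hc m hm i hi := F.kv x hx hc m i hm (by simpa [Fin.le_def] using hi)
  fukuda m hm h := F.fukuda x hx m hm h

/-- **Theorem.** `X` is a smooth projective fourfold, `K_X ~ 0`, `H^1(X, O_X) = 0`, and `x` is a nef line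
bundle on `X`. If its numerical dimension is not two, or if a positive multiple of it has a section,
then it is semiample. -/
theorem Four.semiample {r : ℕ} (F : Four r) (x : F.X.P) (hx : F.X.Nef x)
    (h : F.X.One x ∨ F.Q x x x F.A ≠ 0 ∨ ∃ m : ℕ, 0 < m ∧ F.X.h 0 (m • x) ≠ 0) :
    F.X.Semiample x := by
  by_cases hc : F.Q x x x F.A = 0
  swap
  · exact (F.multiples x hx).semi hc
  rcases h with h | h | ⟨m, hm, h⟩
  · refine F.toGiven.semiample x hx h (Or.inr ⟨0, ?_⟩)
    have h1 := (F.multiples x hx).two_le_chi 0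
    rw [zero_smul]
    unfold Var.chi
    rw [F.dim, Finset.sum_range]
    simp only [Four.multiples, zero_smul] at h1
    intro h2
    rw [h2] at h1
    norm_num at h1
  · exact absurd hc h
  · obtain ⟨D, hD⟩ := (F.div.sect _).1 h
    by_cases hD0 : D = 0
    · refine Var.Semiample.of_nsmul hm ?_
      rw [← hD, hD0, Var.line_zero]
      exact Var.semiample_zero
    · obtain ⟨k, hk, h2⟩ := (F.model x hx hc D hD0 m hm hD).two
      exact F.fukuda x hx k hk h2

end Pool.Agent.H76.FE
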