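import Pool.Agent.H76.FE.Defs

/-!
The first obstruction at a general point: it is a derivation of the functions, and the second
connecting map is given by the connection. The special points.
-/

namespace Pool.Agent.H76.FE

open Pool.Agent.H31.ND

/-! ## Derivations of the ring of formal power series -/

/-- a derivation which is zero on `X` is zero -/
lemma derivation_zero (D : Derivation ℂ Fun Fun) (hX : D PowerSeries.X = 0) (f : Fun) : D f = 0 := by
  have hp : ∀ n : ℕ, D (PowerSeries.X ^ n) = 0 := by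
    intro n
    rw [Derivation.leibniz_pow, hX, smul_zero, smul_zero]
  have hC : ∀ c : ℂ, D (PowerSeries.C c) = 0 := fun c => by
    have := D.map_algebraMap c
    rwa [PowerSeries.algebraMap_apply] at this
  have hdvd : ∀ n : ℕ, PowerSeries.X ^ n ∣ D f := by
    intro n
    obtain ⟨g, hg⟩ : PowerSeries.X ^ n ∣ f - (PowerSeries.trunc n f : PowerSeries ℂ) := by
      rw [PowerSeries.X_pow_dvd_iff]
      intro m hm
      rw [map_sub, Polynomial.coeff_coe, PowerSeries.coeff_trunc, if_pos hm, sub_self]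
    have hpoly : ∀ p : Polynomial ℂ, D (p : PowerSeries ℂ) = 0 := by
      intro p
      induction p using Polynomial.induction_on' with
      | add p q hp' hq' => rw [Polynomial.coe_add, map_add, hp', hq', add_zero]
      | monomial k c =>
        rw [Polynomial.coe_monomial, PowerSeries.monomial_eq_C_mul_X_pow, Derivation.leibniz, hp, hC,
          smul_zero, smul_zero, add_zero]
    have ht : D (PowerSeries.trunc n f : PowerSeries ℂ) = 0 := hpoly _
    have hf : f = (PowerSeries.trunc n f : PowerSeries ℂ) + PowerSeries.X ^ n * g := by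
      rw [← hg]; ring
    rw [hf, map_add, ht, zero_add, Derivation.leibniz, hp, smul_zero, add_zero, smul_eq_mul]
    exact Dvd.intro _ rfl
  ext n
  obtain ⟨g, hg⟩ := hdvd (n + 1)
  rw [hg, PowerSeries.coeff_X_pow_mul', if_neg (by omega)]
  rfl

/-- a derivation of the ring of formal power series is a multiple of the derivative -/
lemma derivation_eq (D : Derivation ℂ Fun Fun) (f : Fun) :
    D f = PowerSeries.derivative ℂ f * D PowerSeries.X := by
  have h := derivation_zero (D - (D PowerSeries.X) • PowerSeries.derivative ℂ) (by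
    rw [Derivation.sub_apply, Derivation.smul_apply, PowerSeries.derivative_X, smul_eq_mul, mul_one,
      sub_self]) f
  rw [Derivation.sub_apply, Derivation.smul_apply, smul_eq_mul, sub_eq_zero] at h
  rw [h, mul_comm]

lemma add_zero' {A B : Type} [AddCommGroup A] [AddCommGroup B] {f : A → B} (hf : Add f) :
    f 0 = 0 := map_zero (AddMonoidHom.mk' f hf)

lemma add_sub' {A B : Type} [AddCommGroup A] [AddCommGroup B] {f : A → B} (hf : Add f) (x y : A) :
    f (x - y) = f x - f y := map_sub (AddMonoidHom.mk' f hf) x y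

lemma add_sum' {A B : Type} [AddCommGroup A] [AddCommGroup B] {f : A → B} (hf : Add f) {r : ℕ}
    (x : Fin r → A) : f (∑ i, x i) = ∑ i, f (x i) := map_sum (AddMonoidHom.mk' f hf) x _

namespace Img

variable {I : Img}

theorem one_add (hI : I.Exact) (q : ℕ) (m : ℤ) (z : I.Z) : ∀ k, Add (I.one q m z k)
  | 0 => fun _ _ => rfl
  | k + 1 => fun x y => by
    change I.one q m z k (I.res q (k + 1) m z (x + y)) = _
    rw [hI.add_res, one_add hI q m z k]
    rfl

theorem one_onto (I : Img) (q : ℕ) (m : ℤ) (z : I.Z) :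
    ∀ n, (∀ j, j < n + 1 → I.S j) → ∀ y, ∃ u, I.one q m z n u = y
  | 0, _ => fun y => ⟨y, rfl⟩
  | n + 1, hS => by
      intro y
      obtain ⟨x, hx⟩ := one_onto I q m z n (fun j hj => hS j (by omega)) y
      obtain ⟨u, hu⟩ := hS (n + 1) (by omega) q m z x
      refine ⟨u, ?_⟩
      change I.one q m z n (I.res q (n + 1) m z u) = y
      rw [hu, hx]

end Img

namespace Symbol.Gen

variable {I : Img} {n : ℕ} {a : ℤ} {A : Symbol I n a}

/-- the connecting map of the functions depends only on the restriction to `D` -/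
theorem d_eq (hG : A.Gen) (hI : I.Exact) (hS : ∀ j, j < n + 1 → I.S j) (g : I.G)
    (x y : I.R 0 (n + 1) 0 (I.pt g)) (h : A.fn g (I.one 0 0 _ n x) = A.fn g (I.one 0 0 _ n y)) :
    A.d g x = A.d g y := by
  have hx : I.one 0 0 _ n (x - y) = 0 := by
    refine hG.fn_inj g _ ?_
    rw [add_sub' (I.one_add hI 0 0 _ n), add_sub' (hG.fn_add g), h, sub_self]
  obtain ⟨v, hv⟩ := hI.ker 0 n 0 _ _ hx
  obtain ⟨u, rfl⟩ := hS n (Nat.lt_succ_self _) 0 (0 - 1) _ v
  have h1 := hG.d_mz g u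
  rw [hv, add_sub' (hG.d_add g), sub_eq_zero] at h1
  exact h1

theorem dd_eq (hG : A.Gen) (hI : I.Exact) (hS : ∀ j, j < n + 1 → I.S j) (g : I.G)
    (x y : I.R 1 (n + 1) a (I.pt g)) (h : A.cb g (I.one 1 a _ n x) = A.cb g (I.one 1 a _ n y)) :
    A.dd g x = A.dd g y := by
  have hx : I.one 1 a _ n (x - y) = 0 := by
    refine hG.cb_inj g _ ?_
    rw [add_sub' (I.one_add hI 1 a _ n), add_sub' (hG.cb_add g), h, sub_self]
  obtain ⟨v, hv⟩ := hI.ker 1 n a _ _ hx
  obtain ⟨u, rfl⟩ := hS n (Nat.lt_succ_self _) 1 (a - 1) _ v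
  have h1 := hG.dd_mz g u
  rw [hv, add_sub' (hG.dd_add g), sub_eq_zero] at h1
  exact h1

theorem lift (hG : A.Gen) (hS : ∀ j, j < n + 1 → I.S j) (g : I.G) (f : Fun) :
    ∃ x, A.fn g (I.one 0 0 _ n x) = f := by
  obtain ⟨y, hy⟩ := hG.fn_onto g f
  obtain ⟨u, hu⟩ := I.one_onto 0 0 (I.pt g) n hS y
  exact ⟨u, by rw [hu, hy]⟩

/-- the symbol -/
theorem symbol (hG : A.Gen) (hI : I.Exact) (hS : ∀ j, j < n + 1 → I.S j) (g : I.G)
    (τ : I.R 0 (n + 1) 0 (I.pt g)) (hτ : A.fn g (I.one 0 0 _ n τ) = PowerSeries.X)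
    (x : I.R 0 (n + 1) 0 (I.pt g)) :
    A.d g x = PowerSeries.derivative ℂ (A.fn g (I.one 0 0 _ n x)) • A.d g τ := by
  choose s hs using hG.lift hS g
  have hone := I.one_add hI 0 0 (I.pt g) n
  funext j
  let D : Fun →ₗ[ℂ] Fun :=
    { toFun := fun f => A.d g (s f) j
      map_add' := fun f f' => by
        rw [hG.d_eq hI hS g (s (f + f')) (s f + s f') (by rw [hone, hG.fn_add, hs, hs, hs]),
          hG.d_add]
        rfl
      map_smul' := fun r f => by
        obtain ⟨c, hc, hc'⟩ := hG.d_cst g r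
        rw [RingHom.id_apply, hG.d_eq hI hS g (s (r • f)) (A.mf g c (s f))
          (by rw [hG.fn_mf, hs, hs, hc, PowerSeries.smul_eq_C_mul]), hG.d_mf, hc, hc', smul_zero,
          add_zero, Pi.smul_apply, smul_eq_mul, PowerSeries.smul_eq_C_mul] }
  let δ : Derivation ℂ Fun Fun := Derivation.mk' D fun f f' => by
    change A.d g (s (f * f')) j = f * A.d g (s f') j + f' * A.d g (s f) j
    rw [hG.d_eq hI hS g (s (f * f')) (A.mf g (s f) (s f')) (by rw [hG.fn_mf, hs, hs, hs]),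
      hG.d_mf, hs, hs]
    rfl
  have h1 := derivation_eq δ (A.fn g (I.one 0 0 _ n x))
  change A.d g (s _) j = _ * A.d g (s _) j at h1
  rw [hG.d_eq hI hS g (s (A.fn g (I.one 0 0 _ n x))) x (hs _),
    hG.d_eq hI hS g (s PowerSeries.X) τ (by rw [hs, hτ])] at h1
  exact h1

theorem connect (hG : A.Gen) (hI : I.Exact) (hS : ∀ j, j < n + 1 → I.S j) (g : I.G)
    (τ : I.R 0 (n + 1) 0 (I.pt g)) (hτ : A.fn g (I.one 0 0 _ n τ) = PowerSeries.X)
    (v : Fin (A.rV g) → Fun) (u : I.R 1 (n + 1) a (I.pt g))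
    (hu : A.cb g (I.one 1 a _ n u) = A.pr g v) :
    A.dd g u = A.pair g (A.d g τ) (A.pr g (der v)) := by
  classical
  choose s hs using hG.lift hS g
  let e : Fin (A.rV g) → Fin (A.rV g) → ℂ := fun i => Pi.single i 1
  have hv : ∀ w : Fin (A.rV g) → Fun, w = ∑ i, w i • cst (e i) := by
    intro w
    funext j
    rw [Finset.sum_apply, Finset.sum_eq_single j]
    · simp [cst, e]
    · intro i _ hij
      simp [cst, e, hij.symm]
    · intro h; exact absurd (Finset.mem_univ j) h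
  have hpr : ∀ w : Fin (A.rV g) → Fun, A.pr g w = ∑ i, w i • A.pr g (cst (e i)) := by
    intro w
    conv_lhs => rw [hv w]
    rw [add_sum' (hG.pr_lin g).1]
    exact Finset.sum_congr rfl fun i _ => (hG.pr_lin g).2 _ _
  have h1 : A.cb g (I.one 1 a _ n (∑ i, A.mb g (s (v i)) (A.fl g (e i)))) = A.pr g v := by
    rw [add_sum' (I.one_add hI 1 a _ n), add_sum' (hG.cb_add g), hpr v]
    refine Finset.sum_congr rfl fun i _ => ?_
    rw [hG.cb_mb, hG.cb_fl, hs]
  rw [hG.dd_eq hI hS g u _ (hu.trans h1.symm), add_sum' (hG.dd_add g), hpr (der v),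
    add_sum' (hG.pair_add g _)]
  refine Finset.sum_congr rfl fun i _ => ?_
  rw [hG.dd_mb, hG.dd_fl, mul_zero, zero_add, hG.cb_fl, hG.symbol hI hS g τ hτ, hs, hG.pair_smul,
    hG.pair_smul']
  rfl

theorem functions (hG : A.Gen) (hI : I.Exact) (hS : ∀ j, j < n + 1 → I.S j) (g : I.G)
    (τ : I.R 0 (n + 1) 0 (I.pt g)) (hτ : A.fn g (I.one 0 0 _ n τ) = PowerSeries.X)
    (h0 : A.d g τ = 0) : ∀ f, ∃ u, I.res 0 (n + 1) 0 (I.pt g) u = f := fun f =>
  hG.exact_d g f (by rw [hG.symbol hI hS g τ hτ, h0, smul_zero])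

end Symbol.Gen

namespace Symbol.Spec

variable {I : Img} {n : ℕ} {a : ℤ} {A : Symbol I n a}

theorem rho_one (hP : A.Spec) (z : A.Sp) (β : A.Br z) : ∀ (j : ℕ) (u : I.R 1 (j + 1) a (A.sp z)),
    I.one 1 a _ j (A.rho z β (j + 1) u) = A.rho z β 1 (I.one 1 a _ j u)
  | 0, _ => rfl
  | j + 1, u => by
    change I.one 1 a _ j (I.res 1 (j + 1) a _ (A.rho z β (j + 1 + 1) u)) =
      A.rho z β 1 (I.one 1 a _ j (I.res 1 (j + 1) a _ u))
    rw [← hP.rho_res, rho_one hP z β j]

theorem bdd (hP : A.Spec) (hG : A.Gen) (hS : ∀ j, j < n + 1 → I.S j)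
    (c : ∀ g, Fin (A.rC g) → Fun)
    (hc : ∀ g v u, A.cb g (I.one 1 a _ n u) = A.pr g v →
      A.dd g u = A.pair g (c g) (A.pr g (der v))) : A.Bdd c := by
  have hpr0 : ∀ g, A.pr g 0 = 0 := fun g => add_zero' (hG.pr_lin g).1
  have hder0 : ∀ g, der (0 : Fin (A.rV g) → Fun) = 0 := fun g => funext fun i => by
    simp [der]
  have hp0 : ∀ g c, A.pair g c 0 = 0 := fun g c => add_zero' (hG.pair_add g c)
  intro z β e he
  obtain ⟨e', he', h1⟩ := hP.onto z β e he
  obtain ⟨u, hu, hu'⟩ := hP.cls z β e' he'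
  obtain ⟨w, hw⟩ := I.one_onto 1 a (A.sp z) n hS u
  have h2 := hc (A.near z β) e' (A.rho z β (n + 1) w) (by rw [hP.rho_one, hw, hu])
  refine ⟨A.rs z β (A.om z w), hP.residue z β _ fun β' h => ?_, ?_⟩
  · rw [hP.rs_om, hc (A.near z β') 0 _ (by rw [hP.rho_one, hw, hu' β' h, hpr0]), hder0, hpr0, hp0]
  · rw [hP.rs_om, h2, ← h1, (hG.pr_lin _).2, hG.pair_smul']

end Symbol.Spec

end Pool.Agent.H76.FE
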